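import Pool.Agent.Q173.KS.Stm

/-! Project KS (helper173), job ADD: one more point. -/

set_option autoImplicit false

namespace Pool.Agent.Q277.KS

open Finset Filter
open Pool.Agent.Q173.KS

theorem starL_length {α : Type} (l : α) (xs : List α) :
    (Pool.Agent.Q173.KS.starL l xs).length = xs.length := by
  induction xs with
  | nil => rfl
  | cons x xs ih =>
    unfold Pool.Agent.Q173.KS.starL
    rw [List.length_append, ih]
    rfl

theorem starL_ops {α : Type} (l : α) (xs : List α) :
    ∀ o ∈ Pool.Agent.Q173.KS.starL l xs, o.a = l ∧ o.b ∈ xs ∧ 0 ≤ o.p ∧ o.p ≤ 1 := by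
  induction xs with
  | nil =>
    intro o ho
    simp [Pool.Agent.Q173.KS.starL] at ho
  | cons x xs ih =>
    intro o ho
    unfold Pool.Agent.Q173.KS.starL at ho
    rcases List.mem_append.1 ho with h | h
    · obtain ⟨h1, h2, h3⟩ := ih o h
      exact ⟨h1, List.mem_cons_of_mem _ h2, h3⟩
    · rw [List.mem_singleton] at h
      subst h
      have h1 : (0 : ℝ) < (xs.length : ℝ) + 2 := by positivity
      refine ⟨rfl, List.mem_cons_self, ?_, ?_⟩
      · show 0 ≤ 1 / ((xs.length : ℝ) + 2)
        positivity
      · show 1 / ((xs.length : ℝ) + 2) ≤ 1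
        rw [div_le_one h1]
        have : (0 : ℝ) ≤ xs.length := Nat.cast_nonneg _
        linarith

section

variable {α : Type} [DecidableEq α]

theorem via_some (σ : Equiv.Perm α) (a : α) :
    σ.viaEmbedding Function.Embedding.some (some a) = some (σ a) :=
  Equiv.Perm.viaEmbedding_apply σ Function.Embedding.some a

theorem via_none (σ : Equiv.Perm α) :
    σ.viaEmbedding Function.Embedding.some (none : Option α) = none := by
  apply Equiv.Perm.viaEmbedding_apply_of_notMem
  rintro ⟨a, ha⟩
  exact Option.some_ne_none a ha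

/-- the law of the images depends only on the set of the indices that are sent to `none` -/
theorem key {k j : ℕ} {ℓ : List (Op α)} (hU : Uni k ℓ) (hj : j ≤ k)
    (F : (Fin j → Option α) → ℝ) (q : Fin j → Prop) (y y' : Fin j → Option α)
    (hy : Function.Injective y) (hy' : Function.Injective y')
    (h1 : ∀ i, q i ↔ y i ≠ none) (h2 : ∀ i, q i ↔ y' i ≠ none) :
    EP ℓ (fun σ => F (fun i => σ.viaEmbedding Function.Embedding.some (y i))) =
      EP ℓ (fun σ => F (fun i => σ.viaEmbedding Function.Embedding.some (y' i))) := by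
  classical
  obtain ⟨e⟩ : Nonempty ({i // q i} ≃ Fin (Fintype.card {i // q i})) := ⟨Fintype.equivFin _⟩
  have hcard : Fintype.card {i // q i} ≤ k := by
    refine le_trans (Fintype.card_subtype_le q) ?_
    rwa [Fintype.card_fin]
  have hz : ∀ (w : Fin j → Option α), Function.Injective w → (∀ i, q i ↔ w i ≠ none) →
      ∃ z : Fin (Fintype.card {i // q i}) → α, Function.Injective z ∧
        ∀ σ : Equiv.Perm α, (fun i => σ.viaEmbedding Function.Embedding.some (w i)) =
          fun i => if h : q i then some (σ (z (e ⟨i, h⟩))) else none := by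
    intro w hw hwq
    have h3 : ∀ t : Fin (Fintype.card {i // q i}), ∃ a, w (e.symm t).1 = some a := fun t =>
      Option.ne_none_iff_exists'.1 ((hwq _).1 (e.symm t).2)
    choose z hz using h3
    refine ⟨z, fun s t hst => ?_, fun σ => ?_⟩
    · have h4 : w (e.symm s).1 = w (e.symm t).1 := by rw [hz, hz, hst]
      exact e.symm.injective (Subtype.ext (hw h4))
    · funext i
      by_cases h : q i
      · rw [dif_pos h]
        have h4 := hz (e ⟨i, h⟩)
        rw [Equiv.symm_apply_apply] at h4
        rw [h4, via_some]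
      · rw [dif_neg h]
        have h4 : w i = none := by
          by_contra h5
          exact h ((hwq i).2 h5)
        rw [h4, via_none]
  obtain ⟨z, hz1, hz2⟩ := hz y hy h1
  obtain ⟨z', hz1', hz2'⟩ := hz y' hy' h2
  simp only [hz2, hz2']
  exact hU _ hcard (fun v => F (fun i => if h : q i then some (v (e ⟨i, h⟩)) else none)) z z'
    hz1 hz1'

theorem rep {k j : ℕ} {ℓ : List (Op α)} (hU : Uni k ℓ) (hj : j ≤ k)
    (F : (Fin j → Option α) → ℝ) : ∃ (c : ℝ) (d : Fin j → ℝ), ∀ y : Fin j → Option α,
      Function.Injective y →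
      EP (ℓ.map (Op.map Function.Embedding.some)) (fun σ => F (fun i => σ (y i))) =
        c + ∑ i, if y i = none then d i else 0 := by
  classical
  obtain ⟨Ψ, hΨ⟩ : ∃ Ψ : (Fin j → Option α) → ℝ, ∀ y, Ψ y =
    EP ℓ (fun σ => F (fun i => σ.viaEmbedding Function.Embedding.some (y i))) := ⟨_, fun _ => rfl⟩
  have hk : ∀ y y' : Fin j → Option α, Function.Injective y → Function.Injective y' →
      (∀ i, y i = none ↔ y' i = none) → Ψ y = Ψ y' := by
    intro y y' hy hy' h
    rw [hΨ, hΨ]
    exact key hU hj F (fun i => y i ≠ none) y y' hy hy' (fun i => Iff.rfl)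
      (fun i => not_congr (h i))
  obtain ⟨c, hc⟩ : ∃ c : ℝ, ∀ y : Fin j → Option α, Function.Injective y → (∀ i, y i ≠ none) →
      Ψ y = c := by
    by_cases h : ∃ y : Fin j → Option α, Function.Injective y ∧ ∀ i, y i ≠ none
    · obtain ⟨y', h1, h2⟩ := h
      exact ⟨Ψ y', fun y hy hn => hk y y' hy h1 fun i =>
        ⟨fun h => absurd h (hn i), fun h => absurd h (h2 i)⟩⟩
    · exact ⟨0, fun y hy hn => absurd ⟨y, hy, hn⟩ h⟩
  have hd : ∀ i₀ : Fin j, ∃ d : ℝ, ∀ y : Fin j → Option α, Function.Injective y → y i₀ = none →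
      Ψ y = c + d := by
    intro i₀
    by_cases h : ∃ y : Fin j → Option α, Function.Injective y ∧ y i₀ = none
    · obtain ⟨y', h1, h2⟩ := h
      refine ⟨Ψ y' - c, fun y hy hn => ?_⟩
      rw [add_sub_cancel]
      refine hk y y' hy h1 fun i => ⟨fun h => ?_, fun h => ?_⟩
      · rw [hy (h.trans hn.symm)]
        exact h2
      · rw [h1 (h.trans h2.symm)]
        exact hn
    · exact ⟨0, fun y hy hn => absurd ⟨y, hy, hn⟩ h⟩
  choose d hd using hd
  refine ⟨c, d, fun y hy => ?_⟩
  rw [EP_map, ← hΨ]
  by_cases h : ∃ i, y i = none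
  · obtain ⟨i₀, hi₀⟩ := h
    rw [Finset.sum_eq_single i₀, if_pos hi₀]
    · exact hd i₀ y hy hi₀
    · intro i _ hi
      rw [if_neg]
      intro h3
      exact hi (hy (h3.trans hi₀.symm))
    · intro h3
      exact absurd (Finset.mem_univ _) h3
  · push Not at h
    rw [Finset.sum_eq_zero, add_zero]
    · exact hc y hy h
    · intro i _
      rw [if_neg (h i)]

end

theorem add (hSTAR : S_STAR) : S_ADD := by
  classical
  intro α _ _ k m hm
  obtain ⟨ℓ, hok, hU, hlen⟩ := hm
  obtain ⟨xs, hxs⟩ : ∃ xs : List (Option α), xs = (univ : Finset α).toList.map some := ⟨_, rfl⟩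
  have hxl : xs.length = Fintype.card α := by
    rw [hxs, List.length_map, Finset.length_toList, Finset.card_univ]
  have hnd : (none :: xs).Nodup := by
    rw [List.nodup_cons, hxs]
    refine ⟨?_, (Finset.nodup_toList _).map (Option.some_injective α)⟩
    rw [List.mem_map]
    rintro ⟨a, _, ha⟩
    exact Option.some_ne_none a ha
  have hmem : ∀ z : Option α, z ∈ none :: xs := by
    intro z
    cases z with
    | none => exact List.mem_cons_self
    | some a =>
      refine List.mem_cons_of_mem _ ?_
      rw [hxs, List.mem_map]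
      exact ⟨a, Finset.mem_toList.2 (Finset.mem_univ a), rfl⟩
  refine ⟨Pool.Agent.Q173.KS.starL none xs ++ ℓ.map (Op.map Function.Embedding.some), ?_, ?_, ?_⟩
  · refine Ok.append ?_ (hok.map _)
    intro o ho
    obtain ⟨h1, h2, h3⟩ := starL_ops none xs o ho
    refine ⟨?_, h3⟩
    rw [h1]
    intro h4
    rw [← h4] at h2
    exact (List.nodup_cons.1 hnd).1 h2
  · intro j hj F x y hx hy
    obtain ⟨c, d, hcd⟩ := rep hU hj F
    have hval : ∀ w : Fin j → Option α, Function.Injective w →
        EP (Pool.Agent.Q173.KS.starL none xs ++ ℓ.map (Op.map Function.Embedding.some))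
          (fun σ => F (fun i => σ (w i))) = c + ∑ i, d i * (1 / ((xs.length : ℝ) + 1)) := by
      intro w hw
      rw [EP_append]
      have h1 : ∀ σ₁ : Equiv.Perm (Option α),
          EP (ℓ.map (Op.map Function.Embedding.some)) (fun σ₂ => F (fun i => (σ₂ * σ₁) (w i))) =
            c + ∑ i, d i * (if σ₁ (w i) = none then (1 : ℝ) else 0) := by
        intro σ₁
        have h2 := hcd (fun i => σ₁ (w i)) (σ₁.injective.comp hw)
        simp only [Equiv.Perm.mul_apply]
        rw [h2]
        congr 1
        refine Finset.sum_congr rfl fun i _ => ?_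
        split_ifs <;> simp
      simp only [h1]
      rw [EP_add, EP_const, EP_sum]
      congr 1
      refine Finset.sum_congr rfl fun i _ => ?_
      rw [EP_mul, hSTAR (Option α) none xs hnd (w i) (hmem (w i))]
    rw [hval x hx, hval y hy]
  · rw [List.length_append, starL_length, List.length_map, hxl]
    omega

end Pool.Agent.Q277.KS
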